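import Pool.Agent.Helper3.FewP.Goals

/-!
# FewPoints (MP_d3128a_ag), packet STRIP-DET
-/

set_option autoImplicit false

namespace Pool.Agent.Helper60.FewP.DET

open Pool.Agent.Helper3.FewP

/-- the coefficient at `γ` as an additive homomorphism -/
def ch {F R Γ : Type} [Field F] [CommRing R] [AddCommGroup Γ] (K : CoefRing F R Γ) (γ : Γ) :
    R →+ F where
  toFun f := K.cf f γ
  map_zero' := by
    have h := K.add 0 0 γ
    rw [add_zero] at h
    linear_combination -h
  map_add' f g := K.add f g γ

theorem t : G_DET := by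
  intro F R Γ κ ι _ _ _ _ _ _ K ℓ lam M p i0 γ a h1 h2 h3
  -- (a)
  have hA : ∀ (σ : ι → ι) (s : Finset ι) (δ : Γ), K.cf (∏ c ∈ s, M (σ c) c) δ ≠ 0 →
      ((∀ c ∈ s, p (σ c) = i0 c) ∧ δ = ∑ c ∈ s, γ c) ∨
        ∑ c ∈ s, (ℓ (γ c) + lam (i0 c)) < ℓ δ + ∑ c ∈ s, lam (p (σ c)) := by
    intro σ s
    induction s using Finset.induction_on with
    | empty =>
      intro δ hδ
      left
      refine ⟨by simp, ?_⟩
      rw [Finset.prod_empty] at hδ
      rw [Finset.sum_empty]
      by_contra hne
      exact hδ (K.one.2 δ hne)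
    | insert c s hc ih =>
      intro δ hδ
      rw [Finset.prod_insert hc] at hδ
      obtain ⟨α, β, rfl, hα, hβ⟩ := K.supp _ _ _ hδ
      rw [Finset.sum_insert hc, Finset.sum_insert hc, Finset.sum_insert hc, map_add]
      rcases h1 _ _ _ hα with ⟨e1, e2⟩ | e1 <;> rcases ih β hβ with ⟨e3, e4⟩ | e3
      · left
        refine ⟨fun x hx => ?_, by rw [e2, e4]⟩
        rcases Finset.mem_insert.mp hx with rfl | hx
        · exact e1
        · exact e3 x hx
      · right
        rw [e2, e1]
        linarith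
      · right
        have e5 : ∑ x ∈ s, (ℓ (γ x) + lam (i0 x)) = ℓ β + ∑ x ∈ s, lam (p (σ x)) := by
          rw [Finset.sum_add_distrib, e4, map_sum]
          congr 1
          exact Finset.sum_congr rfl fun x hx => by rw [e3 x hx]
        linarith
      · right
        linarith
  -- (b)
  have hB : ∀ (σ : ι → ι) (s : Finset ι), (∀ c ∈ s, p (σ c) = i0 c) →
      K.cf (∏ c ∈ s, M (σ c) c) (∑ c ∈ s, γ c) = ∏ c ∈ s, a (σ c) c := by
    intro σ s
    induction s using Finset.induction_on with
    | empty =>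
      intro _
      simp [K.one.1]
    | insert c s hc ih =>
      intro hs
      have hs1 : ∀ x ∈ s, p (σ x) = i0 x := fun x hx => hs x (Finset.mem_insert_of_mem hx)
      have hs2 : p (σ c) = i0 c := hs c (Finset.mem_insert_self _ _)
      rw [Finset.prod_insert hc, Finset.sum_insert hc, Finset.prod_insert hc, K.mul, ih hs1,
        h2 _ _ hs2]
      intro α' β' hab hα hβ
      rcases h1 _ _ _ hα with ⟨e1, e2⟩ | e1
      · refine ⟨e2, ?_⟩
        rw [e2] at hab
        exact add_left_cancel hab
      · rcases hA σ s β' hβ with ⟨e3, e4⟩ | e3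
        · refine ⟨?_, e4⟩
          rw [e4] at hab
          exact add_right_cancel hab
        · exfalso
          have e5 := congrArg ℓ hab
          rw [map_add, map_add, map_sum] at e5
          rw [Finset.sum_add_distrib] at e3
          have e6 : ∑ x ∈ s, lam (p (σ x)) = ∑ x ∈ s, lam (i0 x) :=
            Finset.sum_congr rfl fun x hx => by rw [hs1 x hx]
          rw [hs2] at e1
          rw [e6] at e3
          linarith
  -- the permutation `σ₀`
  obtain ⟨σ0, hσ0⟩ : ∃ σ : Equiv.Perm ι, ∀ c, p (σ c) = i0 c := by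
    by_contra hcon
    push Not at hcon
    apply h3
    rw [Matrix.det_apply]
    refine Finset.sum_eq_zero fun σ _ => ?_
    obtain ⟨c, hc⟩ := hcon σ
    rw [Finset.prod_eq_zero (Finset.mem_univ c) (by rw [Matrix.of_apply, if_neg hc]), smul_zero]
  have hlam : ∑ c, lam (i0 c) = ∑ c, lam (p c) := by
    rw [← Equiv.sum_comp σ0 (fun c => lam (p c))]
    exact Finset.sum_congr rfl fun c _ => by rw [hσ0 c]
  -- the coefficient of the determinant
  have hdet : K.cf M.det (∑ c, γ c) =
      (Matrix.of fun ρ c => if p ρ = i0 c then a ρ c else 0).det := by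
    have e1 : K.cf M.det (∑ c, γ c) = ch K (∑ c, γ c) M.det := rfl
    rw [e1, Matrix.det_apply, Matrix.det_apply, map_sum]
    refine Finset.sum_congr rfl fun σ _ => ?_
    rw [Units.smul_def, Units.smul_def, map_zsmul]
    congr 1
    have e2 : ch K (∑ c, γ c) (∏ c, M (σ c) c) = K.cf (∏ c, M (σ c) c) (∑ c, γ c) := rfl
    rw [e2]
    by_cases hσ : ∀ c, p (σ c) = i0 c
    · rw [hB σ Finset.univ (fun c _ => hσ c)]
      exact Finset.prod_congr rfl fun c _ => by rw [Matrix.of_apply, if_pos (hσ c)]
    · push Not at hσ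
      obtain ⟨c, hc⟩ := hσ
      have e4 : ∏ c, (Matrix.of fun ρ c => if p ρ = i0 c then a ρ c else 0) (σ c) c = 0 :=
        Finset.prod_eq_zero (Finset.mem_univ c) (by rw [Matrix.of_apply, if_neg hc])
      rw [e4]
      by_contra hne
      rcases hA σ Finset.univ _ hne with ⟨e3, -⟩ | e3
      · exact hc (e3 c (Finset.mem_univ c))
      · rw [Finset.sum_add_distrib, map_sum, Equiv.sum_comp σ (fun c => lam (p c)), hlam] at e3
        exact lt_irrefl _ e3
  intro h0
  apply h3
  rw [← hdet, h0]
  exact (ch K (∑ c, γ c)).map_zero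

end Pool.Agent.Helper60.FewP.DET
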