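import Pool.Agent.Helper3.FewP.Goals3

/-!
# FewPoints (MP_d3128a_ag), packet STRIP-I2A
-/

set_option autoImplicit false

namespace Pool.Agent.Helper60.FewP.I2A

open Pool.Agent.Helper3.FewP
open scoped BigOperators

theorem phi_eq (k P r : ℕ) (j s : ℤ) (i : Fin k) :
    phi (ell2 k P) (fun i : Fin k => 2 * (P : ℤ) ^ 2 * ((i : ℕ) : ℤ) * (((i : ℕ) : ℤ) + 1) -
      ((i : ℕ) : ℤ)) (w2 k) k j r i s = FF k P r j ((i : ℕ) : ℤ) s := by
  unfold phi FF ell2 w2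
  simp only [AddMonoidHom.coe_mk, ZeroHom.coe_mk, Sum.elim_inl, Sum.elim_inr]
  have h1 : ∑ x : Fin k, 4 * (P : ℤ) ^ 2 * (k - ((x : ℕ) : ℤ)) *
      (Pi.single i ((r : ℤ) + k * s) : Fin k → ℤ) x =
      4 * (P : ℤ) ^ 2 * (k - ((i : ℕ) : ℤ)) * (r + k * s) := by
    rw [Finset.sum_eq_single i]
    · rw [Pi.single_eq_same]
    · intro b _ hb
      rw [Pi.single_eq_of_ne hb, mul_zero]
    · intro h; exact absurd (Finset.mem_univ _) h
  have h2 : ∑ x : Fin k, 2 * ((x : ℕ) : ℤ) * (2 * P - 1) * (Pi.single i j : Fin k → ℤ) x =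
      2 * ((i : ℕ) : ℤ) * (2 * P - 1) * j := by
    rw [Finset.sum_eq_single i]
    · rw [Pi.single_eq_same]
    · intro b _ hb
      rw [Pi.single_eq_of_ne hb, mul_zero]
    · intro h; exact absurd (Finset.mem_univ _) h
  rw [h1, h2]
  ring

theorem adm (u N : ℕ) (hN : 2 * N = u * (u + 1)) : Adm 1 ((u + 1) / 2) u N 0 := by
  rcases Nat.even_or_odd' u with ⟨q, rfl | rfl⟩
  · left
    have h1 : (2 * q + 1) / 2 = q := by omega
    rw [h1]
    refine ⟨by ring, ?_⟩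
    have h2 : 2 * N = 2 * (q * (2 * 1 * q + 2 * 0 + 1)) := by rw [hN]; ring
    omega
  · right
    have h1 : (2 * q + 1 + 1) / 2 = q + 1 := by omega
    rw [h1]
    refine ⟨by ring, ?_⟩
    have h2 : 2 * (N + (q + 1) * (2 * 0 + 1)) = 2 * ((q + 1) * (2 * 1 * (q + 1))) := by
      rw [mul_add, hN]; ring
    omega

theorem t (hIND : G_IND) (hSZ : G_SZ) (hCV : G_CV2) (hBK : G_BK2) (hFM : G_FM2) : G_I2A := by
  classical
  intro k u N t B hk hu hN ht hB
  have ht0 : t ≠ 0 := by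
    rintro rfl
    exact ht isAlgebraic_zero
  set P : ℕ := (u + 1) / 2 with hPdef
  have hP : 1 ≤ P := by omega
  have hadm : Adm 1 P u N 0 := adm u N hN
  let tu : ℂˣ := Units.mk0 t ht0
  have htu : Transcendental ℚ ((tu⁻¹ : ℂˣ) : ℂ) := by
    intro h
    apply ht
    have h1 := h.inv
    rwa [Units.val_inv_eq_inv_val, inv_inv] at h1
  have hsz : ∀ c : Fin N × Fin k, ∃ (s0 : ℤ) (i0 : Fin k),
      2 * (P : ℤ) ^ 2 * ((i0 : ℕ) : ℤ) ≤ DD P ((c.1 : ℕ) : ℤ) (((c.2 : ℕ) : ℤ) + k * s0) ∧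
      DD P ((c.1 : ℕ) : ℤ) (((c.2 : ℕ) : ℤ) + k * s0) <
        2 * (P : ℤ) ^ 2 * (((i0 : ℕ) : ℤ) + 1) :=
    fun c => hSZ k P (c.2 : ℕ) ((c.1 : ℕ) : ℤ) hk hP
  choose s0 i0 hs1 hs2 using hsz
  obtain ⟨pol, hpol, hx⟩ := hIND (Fin k ⊕ Fin k) (Fin k) (Fin k × Mon u) k N u Prod.fst Prod.snd
    (w2 k) (ell2 k P) (fun i : Fin k => 2 * (P : ℤ) ^ 2 * ((i : ℕ) : ℤ) * (((i : ℕ) : ℤ) + 1) -
      ((i : ℕ) : ℤ)) i0 s0 (fun i ab => ⟨(i, ab), rfl, rfl⟩)
    (by
      intro i j n n' h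
      have h1 := congrFun h (Sum.inl i)
      simp only [w2, Sum.elim_inl, Pi.single_eq_same] at h1
      exact h1)
    (by
      intro c i s h
      rw [phi_eq, phi_eq]
      refine hCV k P (c.2 : ℕ) ((c.1 : ℕ) : ℤ) ((i0 c : ℕ) : ℤ) (s0 c) hk hP (by positivity)
        (by exact_mod_cast (i0 c).2) (hs1 c) (hs2 c) ((i : ℕ) : ℤ) s (by positivity)
        (by exact_mod_cast i.2) ?_
      rcases h with h | h
      · left
        intro h1
        apply h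
        exact Fin.ext (by exact_mod_cast h1)
      · right; exact h)
    (hBK k P u N i0 s0 hk hP hadm (fun c => ⟨hs1 c, hs2 c⟩))
    tu⁻¹ htu
  -- a good point
  let S : Fin k ⊕ Fin k → Set ℂ := Sum.elim (fun _ => (B ∪ {0})ᶜ) (fun _ => {0}ᶜ)
  have hS : ∀ i, (S i).Infinite := by
    intro i
    rcases i with i | i
    · exact Set.Finite.infinite_compl (hB.union (Set.finite_singleton 0))
    · exact Set.Finite.infinite_compl (Set.finite_singleton 0)
  obtain ⟨x, hxS, hxe⟩ : ∃ x : Fin k ⊕ Fin k → ℂ, (∀ i, x i ∈ S i) ∧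
      MvPolynomial.eval x pol ≠ 0 := by
    by_contra hcon
    push Not at hcon
    apply hpol
    refine MvPolynomial.funext_set S hS ?_
    intro x hxS
    rw [map_zero]
    exact hcon x (fun i => hxS i (Set.mem_univ _))
  have hz : ∀ i, x (Sum.inl i) ∉ B ∧ x (Sum.inl i) ≠ 0 := by
    intro i
    have h1 := hxS (Sum.inl i)
    simp only [S, Sum.elim_inl, Set.mem_compl_iff, Set.mem_union, Set.mem_singleton_iff,
      not_or] at h1
    exact h1
  have hc : ∀ i, x (Sum.inr i) ≠ 0 := by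
    intro i
    have h1 := hxS (Sum.inr i)
    simp only [S, Sum.elim_inr, Set.mem_compl_iff, Set.mem_singleton_iff] at h1
    exact h1
  refine ⟨fun i => x (Sum.inl i), fun i => x (Sum.inr i),
    fun i => ⟨(hz i).1, (hz i).2, hc i⟩, ?_⟩
  let zz : Fin k → ℂˣ := fun i => Units.mk0 (x (Sum.inl i)) (hz i).2
  let cc : Fin k → ℂˣ := fun i => Units.mk0 (x (Sum.inr i)) (hc i)
  have hev : (fun i => ((Sum.elim zz cc i : ℂˣ) : ℂ)) = x := by
    funext i
    rcases i with i | i <;> rfl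
  have h1 := hx (Sum.elim zz cc) (by rw [hev]; exact hxe)
  have h2 : (fun (jr : Fin N × Fin k) (y : Fin k × Mon u) =>
      (HahnSeries.C (x (Sum.inr y.1)) : EE) ^ (jr.1 : ℕ) *
        vv k u 1 t (x (Sum.inl y.1)) jr.1 jr.2 y.2) =
      fam k N u (Prod.fst : Fin k × Mon u → Fin k) Prod.snd (w2 k) tu⁻¹ (Sum.elim zz cc) := by
    funext c y
    rw [hFM]
    rfl
  rw [h2]
  exact h1

end Pool.Agent.Helper60.FewP.I2A
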